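import Pool.Agent.T9h54.FF.Spec2
import Pool.Agent.T9h65.LZ.E2

/-!
# Project FF, piece EX: a good chain is continued by primes outside of the conductors
-/

set_option autoImplicit false

namespace Pool.Agent.T9h41.FF

open Finset Filter DirichletCharacter
open Pool.Agent.T9h54.FF

/-- the conductor of a character which vanishes at `ρ` -/
theorem rr_conductor {N : ℕ} [NeZero N] (χ : DirichletCharacter ℂ N) {ρ : ℂ} (hρ : 0 < ρ.re)
    (hρ1 : ρ ≠ 1) (h0 : LFunction χ ρ = 0) : RR ρ χ.conductor := by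
  have h1 : χ.conductor ≠ 0 := conductor_ne_zero χ
  have : NeZero χ.conductor := ⟨h1⟩
  refine ⟨⟨h1⟩, χ.primitiveCharacter, primitiveCharacter_isPrimitive χ, ?_⟩
  rw [← Pool.Agent.T9h65.LZ.zero_iff χ.conductor_dvd_level χ.primitiveCharacter hρ hρ1,
    changeLevel_primitiveCharacter]
  exact h0

theorem step {ρ : ℂ} (hρ : 0 < ρ.re) (hρ1 : ρ ≠ 1) {M N m P : ℕ} (hN : N * P = M * m) (hMN : M ∣ N)
    (hcop : M.Coprime m) (hd : ∀ d e : ℕ, 1 < d → d ∣ m → e ∣ M → ¬ RR ρ (d * e)) [NeZero (N * P)]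
    (χ : DirichletCharacter ℂ (N * P)) (h0 : LFunction χ ρ = 0) :
    ∃ ψ : DirichletCharacter ℂ N, χ = changeLevel (dvd_mul_right N P) ψ := by
  have hr := rr_conductor χ hρ hρ1 h0
  have hrd : χ.conductor ∣ M * m := hN ▸ χ.conductor_dvd_level
  have h1 := Nat.Coprime.gcd_mul χ.conductor hcop
  rw [Nat.gcd_eq_left hrd] at h1
  have h2 : Nat.gcd χ.conductor m ≤ 1 := by
    by_contra h3
    refine hd _ _ (not_le.1 h3) (Nat.gcd_dvd_right _ _) (Nat.gcd_dvd_right χ.conductor M) ?_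
    rw [mul_comm, ← h1]
    exact hr
  have hc0 : χ.conductor ≠ 0 := conductor_ne_zero χ
  have h3 : Nat.gcd χ.conductor m = 1 := by
    have := Nat.gcd_pos_of_pos_left m (Nat.pos_of_ne_zero hc0)
    omega
  rw [h3, mul_one] at h1
  have h4 : χ.conductor ∣ N := by
    rw [h1]
    exact (Nat.gcd_dvd_right _ _).trans hMN
  have h6 : FactorsThrough χ N :=
    (mem_conductorSet_iff_conductor_dvd χ (dvd_mul_right _ _)).2 h4
  exact ⟨h6.χ₀, h6.eq_changeLevel⟩

theorem ex : S_EX := by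
  intro ρ q _ l hρ hρ1 hl ps
  induction ps with
  | nil =>
    intro _ _ _
    exact ⟨hl, by simp⟩
  | cons P ps ih =>
    intro hnd hP hd
    obtain ⟨hPps, hnd'⟩ := List.nodup_cons.1 hnd
    have hprod : (P :: ps).prod = P * ps.prod := List.prod_cons
    obtain ⟨hg, hmd⟩ := ih hnd' (fun p hp => hP p (List.mem_cons_of_mem _ hp))
      (fun d e h1 h2 h3 => hd d e h1 (h2.trans (hprod ▸ dvd_mul_left _ _)) h3)
    have hPp := (hP P List.mem_cons_self).1
    have hPM := (hP P List.mem_cons_self).2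
    have hND : md q (ps ++ l) * P = md q l * (P :: ps).prod := by
      rw [hmd, hprod]
      ring
    have hPN : ¬ P ∣ md q (ps ++ l) := by
      rw [hmd, hPp.dvd_mul, not_or]
      refine ⟨hPM, fun h => ?_⟩
      obtain ⟨p, hp, hpd⟩ := (Nat.Prime.prime hPp).dvd_prod_iff.1 h
      have h2 := (Nat.prime_dvd_prime_iff_eq hPp (hP p (List.mem_cons_of_mem _ hp)).1).1 hpd
      exact hPps (h2 ▸ hp)
    have hcop : (md q l).Coprime (P :: ps).prod := by
      rw [Nat.coprime_list_prod_right_iff]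
      intro p hp
      exact ((Nat.Prime.coprime_iff_not_dvd (hP p hp).1).2 (hP p hp).2).symm
    refine ⟨⟨hg, hPp, hPN, ?_⟩, hND⟩
    intro hne χ h0
    exact step hρ hρ1 hND (hmd ▸ dvd_mul_right _ _) hcop hd χ h0

end Pool.Agent.T9h41.FF
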