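import Pool.Agent.T9h54.FF.Spec
import Pool.Agent.T9h75.LZ.G

/-!
# (GK) Few characters are linearly independent on short intervals
-/

set_option autoImplicit false

namespace Pool.Agent.T9h41.FF

open Finset Filter
open Pool.Agent.T9h54.FF

theorem growthK (C D κ δ : ℝ) (q : ℕ) (hκ : 0 < κ) (hδ : 0 < δ) (hD : 0 < D) : ∃ K : ℕ,
    ∀ P : ℕ, K < P → 3 + C * √(q : ℝ) * ((P : ℝ) ^ κ * ((Real.log q + Real.log P) * (P : ℝ) ^ (-δ))) <
      D * (P : ℝ) ^ κ := by
  have h1 : Tendsto (fun x : ℝ => 3 * x ^ (-κ)) atTop (nhds 0) := by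
    have := (tendsto_rpow_neg_atTop hκ).const_mul 3
    simpa using this
  have h2 : Tendsto (fun x : ℝ => x ^ (-δ)) atTop (nhds 0) := tendsto_rpow_neg_atTop hδ
  have h3 : Tendsto (fun x : ℝ => Real.log x * x ^ (-δ)) atTop (nhds 0) := by
    have h := (isLittleO_log_rpow_atTop hδ).tendsto_div_nhds_zero
    refine h.congr' ?_
    filter_upwards [eventually_gt_atTop 0] with x hx
    rw [Real.rpow_neg hx.le, div_eq_mul_inv]
  have h4 : Tendsto (fun x : ℝ => 3 * x ^ (-κ) + C * √(q : ℝ) *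
      (Real.log q * x ^ (-δ) + Real.log x * x ^ (-δ))) atTop (nhds 0) := by
    have := h1.add (((h2.const_mul (Real.log q)).add h3).const_mul (C * √(q : ℝ)))
    simpa using this
  have h5 := h4.eventually (gt_mem_nhds hD)
  obtain ⟨x₀, hx₀⟩ := eventually_atTop.1 h5
  refine ⟨max ⌈x₀⌉₊ 1, fun P hP => ?_⟩
  have hP1 : x₀ ≤ P := (Nat.le_ceil x₀).trans (by
    exact_mod_cast (le_max_left _ _).trans hP.le)
  have hP0 : (0 : ℝ) < P := by
    have : 1 ≤ P := (le_max_right _ _).trans hP.le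
    exact_mod_cast this
  have h6 := hx₀ P hP1
  have hPk : (0 : ℝ) < (P : ℝ) ^ κ := Real.rpow_pos_of_pos hP0 κ
  have h7 := mul_lt_mul_of_pos_right h6 hPk
  have hinv : (P : ℝ) ^ (-κ) * (P : ℝ) ^ κ = 1 := by
    rw [← Real.rpow_add hP0, neg_add_cancel, Real.rpow_zero]
  have e : (3 * (P : ℝ) ^ (-κ) + C * √(q : ℝ) *
      (Real.log q * (P : ℝ) ^ (-δ) + Real.log P * (P : ℝ) ^ (-δ))) * (P : ℝ) ^ κ =
      3 * ((P : ℝ) ^ (-κ) * (P : ℝ) ^ κ) +
        C * √(q : ℝ) * ((P : ℝ) ^ κ * ((Real.log q + Real.log P) * (P : ℝ) ^ (-δ))) := by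
    ring
  rw [e, hinv, mul_one] at h7
  exact h7

/-- many integers prime to `q P` in a short interval -/
theorem countK (q P A H : ℕ) (hq : 0 < q) (hP : P.Prime) (hqP : q < P) (hH1 : 1 ≤ H)
    (hH : H ≤ q * P) : (H : ℝ) / q - 2 ≤
    (((Ioc A (A + H)).filter (fun j => j.Coprime (q * P))).card : ℝ) := by
  obtain ⟨N, hN⟩ : ∃ N, N = (H - 1) / q := ⟨_, rfl⟩
  obtain ⟨a, ha⟩ : ∃ a, a = A / q := ⟨_, rfl⟩
  have hq0 : (0 : ℝ) < q := by exact_mod_cast hq
  have ha1 : q * a ≤ A := by rw [ha]; exact Nat.mul_div_le A q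
  have ha2 : A < q * (a + 1) := by rw [ha]; exact Nat.lt_mul_div_succ A hq
  have hN1 : q * N ≤ H - 1 := by rw [hN]; exact Nat.mul_div_le _ _
  have hN2 : H - 1 < q * (N + 1) := by rw [hN]; exact Nat.lt_mul_div_succ _ hq
  have hNP : N < P := by
    have : q * N < q * P := by omega
    exact Nat.lt_of_mul_lt_mul_left this
  have hNr : (H : ℝ) / q - 1 ≤ N := by
    rw [sub_le_iff_le_add, div_le_iff₀ hq0]
    have : H ≤ q * (N + 1) := by omega
    have h1 : (H : ℝ) ≤ ((q * (N + 1) : ℕ) : ℝ) := by exact_mod_cast this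
    push_cast at h1
    linarith
  have hbad : ((range N).filter (fun i => P ∣ q * (a + 1 + i) + 1)).card ≤ 1 := by
    rw [card_le_one]
    have key : ∀ x y : ℕ, x ∈ (range N).filter (fun i => P ∣ q * (a + 1 + i) + 1) →
        y ∈ (range N).filter (fun i => P ∣ q * (a + 1 + i) + 1) → x ≤ y → x = y := by
      intro x y hx hy hxy
      rw [mem_filter, mem_range] at hx hy
      have h1 : P ∣ q * (y - x) := by
        have h2 := Nat.dvd_sub hy.2 hx.2
        have h3 : q * (a + 1 + y) + 1 - (q * (a + 1 + x) + 1) = q * (y - x) := by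
          obtain ⟨c, rfl⟩ : ∃ c, y = x + c := ⟨y - x, by omega⟩
          rw [Nat.add_sub_cancel_left]
          have : q * (a + 1 + (x + c)) + 1 = q * c + (q * (a + 1 + x) + 1) := by ring
          rw [this, Nat.add_sub_cancel]
        rwa [h3] at h2
      rcases hP.dvd_mul.1 h1 with h | h
      · exact absurd (Nat.le_of_dvd hq h) (by omega)
      · have := Nat.eq_zero_of_dvd_of_lt h (by omega)
        omega
    intro x hx y hy
    rcases le_total x y with h | h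
    · exact key x y hx hy h
    · exact (key y x hy hx h).symm
  have hgood : (H : ℝ) / q - 2 ≤ (((range N).filter (fun i => ¬ P ∣ q * (a + 1 + i) + 1)).card : ℝ) := by
    have h1 := card_filter_add_card_filter_not (s := range N) (fun i => P ∣ q * (a + 1 + i) + 1)
    rw [card_range] at h1
    have h2 : (((range N).filter (fun i => P ∣ q * (a + 1 + i) + 1)).card : ℝ) +
        (((range N).filter (fun i => ¬ P ∣ q * (a + 1 + i) + 1)).card : ℝ) = (N : ℝ) := by
      exact_mod_cast h1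
    have h3 : (((range N).filter (fun i => P ∣ q * (a + 1 + i) + 1)).card : ℝ) ≤ 1 := by
      exact_mod_cast hbad
    linarith
  refine hgood.trans ?_
  have hinj : ((range N).filter (fun i => ¬ P ∣ q * (a + 1 + i) + 1)).card ≤
      ((Ioc A (A + H)).filter (fun j => j.Coprime (q * P))).card := by
    refine card_le_card_of_injOn (fun i => q * (a + 1 + i) + 1) ?_ ?_
    · intro i hi'
      have hi'' := mem_filter.1 (mem_coe.1 hi')
      have hi := mem_range.1 hi''.1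
      refine mem_coe.2 (mem_filter.2 ⟨mem_Ioc.2 ⟨?_, ?_⟩, ?_⟩)
      · have : q * (a + 1) ≤ q * (a + 1 + i) := Nat.mul_le_mul_left _ (by omega)
        show A < q * (a + 1 + i) + 1
        omega
      · have h1 : q * (1 + i) ≤ q * N := Nat.mul_le_mul_left _ (by omega)
        have h2 : q * (a + 1 + i) = q * a + q * (1 + i) := by ring
        show q * (a + 1 + i) + 1 ≤ A + H
        omega
      · refine Nat.Coprime.mul_right ?_ ?_
        · show Nat.Coprime (q * (a + 1 + i) + 1) q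
          rw [mul_comm q (a + 1 + i), Nat.coprime_mul_right_add_left]
          exact Nat.coprime_one_left q
        · rw [Nat.coprime_comm]
          exact (hP.coprime_iff_not_dvd).2 hi''.2
    · intro x _ y _ h
      have h' : q * (a + 1 + x) + 1 = q * (a + 1 + y) + 1 := h
      have : q * (a + 1 + x) = q * (a + 1 + y) := by omega
      have := Nat.eq_of_mul_eq_mul_left hq this
      omega
  exact_mod_cast hinj

/-- **(GK)** -/
theorem gk : S_GK := by
  intro q _ κ δ hκ hκ1 hδ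
  obtain ⟨C, hC, hPV⟩ := Pool.Agent.H38R2.CG.T_PV
  have hq : 0 < q := Nat.pos_of_ne_zero (NeZero.ne q)
  have hq0 : (0 : ℝ) < q := by exact_mod_cast hq
  have hq1 : (1 : ℝ) ≤ q := by exact_mod_cast hq
  obtain ⟨K, hK⟩ := growthK C (1 / q) κ δ q (by linarith) hδ (by positivity)
  refine ⟨max K (max q 1), fun P hP hKP A B hB g hg => ?_⟩
  have hqP : q < P := (le_max_left _ _).trans_lt ((le_max_right _ _).trans_lt hKP)
  have hK' := hK P ((le_max_left _ _).trans_lt hKP)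
  have hP0 : (0 : ℝ) < P := by exact_mod_cast hP.pos
  have hP1 : (1 : ℝ) ≤ P := by exact_mod_cast hP.one_le
  obtain ⟨Q, hQ⟩ : ∃ Q : ℕ, Q = q * P := ⟨_, rfl⟩
  have hQ2 : 2 ≤ Q := by
    have := hP.two_le
    rw [hQ]
    calc 2 ≤ 1 * P := by omega
      _ ≤ q * P := Nat.mul_le_mul_right _ hq
  have hQ0 : (0 : ℝ) < Q := by exact_mod_cast (by omega : 0 < Q)
  have hQ1 : (1 : ℝ) ≤ Q := by exact_mod_cast (by omega : 1 ≤ Q)
  obtain ⟨H, hH⟩ : ∃ H : ℕ, H = ⌊(Q : ℝ) ^ κ⌋₊ := ⟨_, rfl⟩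
  have hHle : (H : ℝ) ≤ (Q : ℝ) ^ κ := by
    rw [hH]
    exact Nat.floor_le (Real.rpow_nonneg hQ0.le κ)
  have hHge : (Q : ℝ) ^ κ - 1 < H := by
    rw [hH]
    exact Nat.sub_one_lt_floor _
  have hH1 : 1 ≤ H := by
    rw [hH]
    refine Nat.le_floor ?_
    rw [Nat.cast_one]
    exact Real.one_le_rpow hQ1 (by linarith)
  have hHQ : H ≤ q * P := by
    have h1 : (Q : ℝ) ^ κ ≤ Q := by
      calc (Q : ℝ) ^ κ ≤ (Q : ℝ) ^ (1 : ℝ) := Real.rpow_le_rpow_of_exponent_le hQ1 hκ1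
        _ = Q := Real.rpow_one _
    have h2 : (H : ℝ) ≤ Q := hHle.trans h1
    rw [← hQ]
    exact_mod_cast h2
  have hN := countK q P A H hq hP hqP hH1 hHQ
  subst hQ
  have e1 : (A : ℝ) / ((q * P : ℕ) : ℝ) * ((q * P : ℕ) : ℝ) = A := div_mul_cancel₀ _ hQ0.ne'
  have e2 : ((A + H + 1 : ℕ) : ℝ) / ((q * P : ℕ) : ℝ) * ((q * P : ℕ) : ℝ) = ((A + H + 1 : ℕ) : ℝ) :=
    div_mul_cancel₀ _ hQ0.ne'
  refine Pool.Agent.T9h75.LZ.core C hC hPV (q * P) hQ2 ((A : ℝ) / ((q * P : ℕ) : ℝ))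
    (((A + H + 1 : ℕ) : ℝ) / ((q * P : ℕ) : ℝ)) (by positivity) B g ?_ ?_
  · intro j hj h1 h2
    rw [div_lt_div_iff_of_pos_right hQ0] at h1 h2
    have h1' : A < j := by exact_mod_cast h1
    have h2' : j < A + H + 1 := by exact_mod_cast h2
    refine hg j hj h1' ?_
    have h3 : (j : ℝ) ≤ ((A + H : ℕ) : ℝ) := by exact_mod_cast (by omega : j ≤ A + H)
    push_cast at h3
    linarith
  · rw [e1, e2, Nat.floor_natCast, Nat.ceil_natCast, Nat.add_sub_cancel]
    refine lt_of_lt_of_le ?_ hN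
    have hPκ : (P : ℝ) ^ κ ≤ ((q * P : ℕ) : ℝ) ^ κ := by
      refine Real.rpow_le_rpow hP0.le ?_ (by linarith)
      push_cast
      nlinarith
    have h5 : 1 / (q : ℝ) * (P : ℝ) ^ κ - 3 ≤ (H : ℝ) / q - 2 := by
      have h6 : ((P : ℝ) ^ κ - 1) / q ≤ (H : ℝ) / q := by
        refine div_le_div_of_nonneg_right ?_ hq0.le
        linarith
      have h7 : (1 : ℝ) / q ≤ 1 := by
        rw [div_le_one hq0]
        exact hq1
      have h8 : ((P : ℝ) ^ κ - 1) / q = 1 / (q : ℝ) * (P : ℝ) ^ κ - 1 / q := by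
        field_simp
      linarith
    refine lt_of_lt_of_le ?_ h5
    have h4 : (B.card : ℝ) * (C * √((q * P : ℕ) : ℝ) * Real.log ((q * P : ℕ) : ℝ)) ≤
        C * √(q : ℝ) * ((P : ℝ) ^ κ * ((Real.log q + Real.log P) * (P : ℝ) ^ (-δ))) := by
      have e1 : √((q * P : ℕ) : ℝ) = √(q : ℝ) * (P : ℝ) ^ (1 / 2 : ℝ) := by
        rw [Nat.cast_mul, Real.sqrt_mul hq0.le, Real.sqrt_eq_rpow (P : ℝ)]
      have e2 : Real.log ((q * P : ℕ) : ℝ) = Real.log q + Real.log P := by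
        rw [Nat.cast_mul, Real.log_mul hq0.ne' hP0.ne']
      have e3 : (P : ℝ) ^ (κ - 1 / 2 - δ) * (P : ℝ) ^ (1 / 2 : ℝ) = (P : ℝ) ^ κ * (P : ℝ) ^ (-δ) := by
        rw [← Real.rpow_add hP0, ← Real.rpow_add hP0]
        congr 1
        ring
      have hlog : 0 ≤ Real.log ((q * P : ℕ) : ℝ) := Real.log_nonneg hQ1
      calc (B.card : ℝ) * (C * √((q * P : ℕ) : ℝ) * Real.log ((q * P : ℕ) : ℝ))
          ≤ (P : ℝ) ^ (κ - 1 / 2 - δ) * (C * √((q * P : ℕ) : ℝ) * Real.log ((q * P : ℕ) : ℝ)) :=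
            mul_le_mul_of_nonneg_right hB (by positivity)
        _ = C * √(q : ℝ) * (((P : ℝ) ^ (κ - 1 / 2 - δ) * (P : ℝ) ^ (1 / 2 : ℝ)) *
            (Real.log q + Real.log P)) := by rw [e1, e2]; ring
        _ = _ := by rw [e3]; ring
    linarith

end Pool.Agent.T9h41.FF
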